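import Pool.Agent.Helper24.FF.Stmts

/-! Full list for MP_866009_co, part F: the Naji solution along a ladder. -/

set_option autoImplicit false

namespace Pool.Agent.Helper24.FF

open Pool.Agent.Helper64.CT Pool.Agent.Helper64.DT Pool.Agent.Helper64.FL
open Pool.Agent.Helper64.HG (Ovl Model Circ IC HellyCircle ChordModel)

theorem lna_adj {V : Type} (G : SimpleGraph V) (x y : V) (C : List V) : ∀ A : List V,
    IPt G (A ++ x :: y :: C) → G.Adj x y
  | [], h => h.2.1 y rfl
  | _ :: A, h => lna_adj G x y C A h.2.2.2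

theorem lna_aux (hC : ST_CLW) (hR : ST_RUB) {V : Type} (G : SimpleGraph V) (S : Set V)
    (b : V → V → Bool) (h k r r' l : V) (hN : NS G S b) (hS : h ∈ S) (hr : G.Adj h r)
    (hr' : G.Adj h r') : ∀ (n : ℕ) (X : List V), X.length ≤ n → ∀ (A : List V) (x : V),
    IPt G (A ++ x :: (X ++ [r'])) → (∀ y ∈ A ++ x :: (X ++ [r']), y ∈ S ∧ y ≠ h) → r ∈ A →
    ¬ G.Adj h x →
    (∀ y ∈ x :: (X ++ [r']), ∀ z ∈ x :: (X ++ [r']), G.Adj y z → ¬ (G.Adj h y ∧ G.Adj h z)) →
    (∀ y ∈ x :: X, (G.Adj h y ↔ G.Adj k y)) → (x :: X).getLast? = some l →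
    (b h x = b h l ↔ Even (rungs G h k X)) := by
  obtain ⟨r0, r1, r2, -⟩ := hR V G h k
  intro n
  induction n with
  | zero =>
    intro X hX A x _ _ _ _ _ _ hl
    cases X with
    | nil =>
      have e : x = l := by simpa using hl
      rw [e, r0]
      simp
    | cons ρ X => simp at hX
  | succ n ih =>
    intro X hX A x hip hm hrA hx hind hmid hl
    cases X with
    | nil =>
      have e : x = l := by simpa using hl
      rw [e, r0]
      simp
    | cons ρ X =>
      have hxρ : G.Adj x ρ := lna_adj G x ρ (X ++ [r']) A hip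
      have hlen : X.length ≤ n := by simpa using hX
      by_cases hρ : G.Adj h ρ
      · cases X with
        | nil =>
          exfalso
          have e : A ++ x :: ([ρ] ++ [r']) = (A ++ [x]) ++ ρ :: r' :: [] := by simp
          have ad : G.Adj ρ r' := lna_adj G ρ r' [] (A ++ [x]) (by rw [← e]; exact hip)
          exact hind ρ (by simp) r' (by simp) ad ⟨hρ, hr'⟩
        | cons f X =>
          have e : A ++ x :: ((ρ :: f :: X) ++ [r']) = (A ++ [x, ρ]) ++ f :: (X ++ [r']) := by simp
          have e' : A ++ x :: ((ρ :: f :: X) ++ [r']) = (A ++ [x]) ++ ρ :: f :: (X ++ [r']) := by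
            simp
          have adf : G.Adj ρ f := lna_adj G ρ f (X ++ [r']) (A ++ [x]) (by rw [← e']; exact hip)
          have hf : ¬ G.Adj h f := fun e0 => hind ρ (by simp) f (by simp) adf ⟨hρ, e0⟩
          have kρ : G.Adj k ρ := (hmid ρ (by simp)).1 hρ
          have h1 : b h x ≠ b h f := hC V G S b h r r' x ρ f A (X ++ [r']) hN hip hS hm hrA hr
            (by simp) hr' hρ hx hf
          have hlen2 : X.length ≤ n := by
            simp at hlen
            omega
          have h2 := ih X hlen2 (A ++ [x, ρ]) f (by rw [← e]; exact hip)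
            (by rw [← e]; exact hm) (List.mem_append_left _ hrA) hf
            (fun y hy z hz => hind y (List.mem_cons_of_mem _ (List.mem_cons_of_mem _ hy)) z
              (List.mem_cons_of_mem _ (List.mem_cons_of_mem _ hz)))
            (fun y hy => hmid y (List.mem_cons_of_mem _ (List.mem_cons_of_mem _ hy)))
            (by rw [← hl, List.getLast?_cons_cons, List.getLast?_cons_cons])
          rw [r1 ρ (f :: X) ⟨hρ, kρ⟩, r2 f X (fun e0 => hf e0.1), Nat.even_add_one, ← h2]
          revert h1
          cases b h x <;> cases b h f <;> cases b h l <;> simp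
      · have e : A ++ x :: ((ρ :: X) ++ [r']) = (A ++ [x]) ++ ρ :: (X ++ [r']) := by simp
        have hx1 := hm x (by simp)
        have hρ1 := hm ρ (by simp)
        have h1 : b h x = b h ρ := hN.n2 h hS x hx1.1 ρ hρ1.1 ⟨hx1.2, hx⟩
          ⟨hρ1.2, hρ⟩ hxρ
        have h2 := ih X hlen (A ++ [x]) ρ (by rw [← e]; exact hip)
            (by rw [← e]; exact hm) (List.mem_append_left _ hrA) hρ
            (fun y hy z hz => hind y (List.mem_cons_of_mem _ hy) z (List.mem_cons_of_mem _ hz))
            (fun y hy => hmid y (List.mem_cons_of_mem _ hy))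
            (by rw [← hl, List.getLast?_cons_cons])
        rw [r2 ρ X (fun e0 => hρ e0.1), h1, h2]

theorem st_LNA (hC : ST_CLW) (hR : ST_RUB) : ST_LNA := by
  intro V G S b h k r r' x l A X hN hip hS hm hrA hr hr' hx hind hmid hl
  exact lna_aux hC hR G S b h k r r' l hN hS hr hr' X.length X le_rfl A x hip hm hrA hx hind hmid hl

end Pool.Agent.Helper24.FF
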