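import Pool.Agent.Helper24.FF.Stmts

/-! Full list for MP_866009_co, part F: ladders with the wrong parity have no Naji system. -/

set_option autoImplicit false

namespace Pool.Agent.Helper24.FF

open Pool.Agent.Helper64.CT Pool.Agent.Helper64.DT Pool.Agent.Helper64.FL
open Pool.Agent.Helper64.HG (Ovl Model Circ IC HellyCircle ChordModel)

theorem lnj_ipl {V : Type} (G : SimpleGraph V) : ∀ A B : List V, IPt G (A ++ B) → IPt G A
  | [], _, _ => trivial
  | a :: A, B, h => by
    obtain ⟨h1, h2, h3, h4⟩ := h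
    refine ⟨fun x hx => h1 x (List.mem_append_left _ hx), ?_, ?_, lnj_ipl G A B h4⟩
    · intro b hb
      cases A with
      | nil => simp at hb
      | cons c A => exact h2 b hb
    · intro x hx
      cases A with
      | nil => simp at hx
      | cons c A => exact h3 x (List.mem_append_left _ hx)

theorem lnj_ipr {V : Type} (G : SimpleGraph V) : ∀ A B : List V, IPt G (A ++ B) → IPt G B
  | [], _, h => h
  | _ :: A, B, h => lnj_ipr G A B h.2.2.2

theorem lnj_dis {V : Type} (G : SimpleGraph V) : ∀ A B : List V, IPt G (A ++ B) →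
    ∀ x ∈ A, ∀ y ∈ B, x ≠ y
  | [], _, _ => by
    intro x hx
    simp at hx
  | a :: A, B, h => by
    intro x hx y hy
    rcases List.mem_cons.1 hx with e | hx
    · rw [e]
      exact h.1 y (List.mem_append_right _ hy)
    · exact lnj_dis G A B h.2.2.2 x hx y hy

theorem lnj_split (hR : ST_RUB) {V : Type} (G : SimpleGraph V) (h k : V) : ∀ N : List V,
    1 ≤ rungs G h k N → ∃ (A : List V) (r : V) (N' : List V), N = A ++ r :: N' ∧
      (∀ x ∈ A, ¬ (G.Adj h x ∧ G.Adj k x)) ∧ G.Adj h r ∧ G.Adj k r ∧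
      rungs G h k N = rungs G h k N' + 1
  | [], h1 => by
    obtain ⟨e, -⟩ := hR V G h k
    rw [e] at h1
    omega
  | x :: N, h1 => by
    obtain ⟨-, e1, e2, -⟩ := hR V G h k
    by_cases hx : G.Adj h x ∧ G.Adj k x
    · exact ⟨[], x, N, rfl, by simp, hx.1, hx.2, e1 x N hx⟩
    · rw [e2 x N hx] at h1
      obtain ⟨A, r, N', f1, f2, f3, f4, f5⟩ := lnj_split hR G h k N h1
      refine ⟨x :: A, r, N', by rw [f1]; rfl, ?_, f3, f4, by rw [e2 x N hx, f5]⟩
      intro y hy
      rcases List.mem_cons.1 hy with e | hy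
      · rw [e]
        exact hx
      · exact f2 y hy

/-- one end of a ladder -/
theorem lnj_half (hB : ST_LNB) {V : Type} (G : SimpleGraph V) (S : Set V) (c : V → V → Bool)
    (h k p r f s : V) (A C : List V) (a b : Bool) (hN : NS G S c) (hS : h ∈ S) (kS : k ∈ S)
    (hL : LadM G h k (p :: (A ++ r :: f :: C)) a b)
    (hM : ∀ y ∈ p :: (A ++ r :: f :: C), y ∈ S) (hr : G.Adj h r) (kr : G.Adj k r)
    (hA : ∀ x ∈ A, ¬ (G.Adj h x ∧ G.Adj k x)) (sC : s ∈ C) (hs : G.Adj h s) (ks : G.Adj k s)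
    (fs : ¬ G.Adj f s) : ¬ G.Adj h f ∧ ¬ G.Adj k f ∧ (c h k = c h f ↔ a = true) := by
  have hip := hL.ip
  have hpd : ∀ x ∈ A ++ r :: f :: C, p ≠ x := hip.1
  have hlast : ∀ x, x ∈ C.getLast? → (p :: (A ++ r :: f :: C)).getLast? = some x := by
    intro x hx
    have hx' : C.getLast? = some x := hx
    have e : p :: (A ++ r :: f :: C) = (p :: (A ++ [r, f])) ++ C := by simp
    rw [e, List.getLast?_append, hx']
    rfl
  obtain ⟨z, hz⟩ : ∃ z, C.getLast? = some z := by
    cases hC : C.getLast? with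
    | none =>
      rw [List.getLast?_eq_none_iff] at hC
      rw [hC] at sC
      simp at sC
    | some z => exact ⟨z, rfl⟩
  have hzC : z ∈ C := List.mem_of_getLast? hz
  have hmid : ∀ x, x ∈ A ++ r :: f :: C → x ≠ z → (G.Adj h x ↔ G.Adj k x) := by
    intro x hx hxz
    refine hL.mid x (List.mem_cons_of_mem _ hx) ?_ ?_
    · intro e
      have e' : p = x := by simpa using e
      exact hpd x hx e'
    · rw [hlast z hz]
      intro e
      exact hxz (Option.some.inj e).symm
  have hip2 : IPt G (A ++ r :: f :: C) := hip.2.2.2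
  have hrf : IPt G (r :: f :: C) := lnj_ipr G A _ hip2
  have arf : G.Adj r f := hrf.2.1 f rfl
  have hfz : f ≠ z := hrf.2.2.2.1 z hzC
  have hrM : r ∈ p :: (A ++ r :: f :: C) :=
    List.mem_cons_of_mem _ (List.mem_append_right _ List.mem_cons_self)
  have hfM : f ∈ p :: (A ++ r :: f :: C) :=
    List.mem_cons_of_mem _ (List.mem_append_right _ (List.mem_cons_of_mem _ List.mem_cons_self))
  have hf0 : ¬ (G.Adj h f ∧ G.Adj k f) := fun e =>
    hL.ind r hrM f hfM arf ⟨hr, kr, e.1, e.2⟩
  have hf1 : G.Adj h f ↔ G.Adj k f :=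
    hmid f (List.mem_append_right _ (List.mem_cons_of_mem _ List.mem_cons_self)) hfz
  have hf : ¬ G.Adj h f := fun e => hf0 ⟨e, hf1.1 e⟩
  have kf : ¬ G.Adj k f := fun e => hf0 ⟨hf1.2 e, e⟩
  have hA1 : ∀ x ∈ A, ¬ G.Adj h x ∧ ¬ G.Adj k x := by
    intro x hx
    have h1 : G.Adj h x ↔ G.Adj k x := by
      refine hmid x (List.mem_append_left _ hx) ?_
      exact lnj_dis G A _ hip2 x hx z (List.mem_cons_of_mem _ (List.mem_cons_of_mem _ hzC))
    exact ⟨fun e => hA x hx ⟨e, h1.1 e⟩, fun e => hA x hx ⟨h1.2 e, e⟩⟩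
  refine ⟨hf, kf, ?_⟩
  have hfst := hL.fst p rfl
  have hmem : ∀ y ∈ p :: (A ++ r :: f :: C), y ∈ S ∧ y ≠ h ∧ y ≠ k := fun y hy =>
    ⟨hM y hy, fun e => hL.hM (e ▸ hy), fun e => hL.kM (e ▸ hy)⟩
  cases a with
  | true =>
    have hp : G.Adj h p := hfst.1.2 rfl
    have kp : ¬ G.Adj k p := fun e => by simpa using hfst.2.1 e
    have := hB V G S c h k p r f s A C hN hL.ne hL.nadj hS kS hip hmem hp kp hr kr hf kf hA1 sC
      hs ks fs
    exact ⟨fun _ => rfl, fun _ => this.1⟩
  | false =>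
    have kp : G.Adj k p := hfst.2.2 rfl
    have hp : ¬ G.Adj h p := fun e => by simpa using hfst.1.1 e
    have := hB V G S c k h p r f s A C hN hL.ne.symm (fun e => hL.nadj e.symm) kS hS hip
      (fun y hy => ⟨(hmem y hy).1, (hmem y hy).2.2, (hmem y hy).2.1⟩) kp hp kr hr kf hf
      (fun x hx => ⟨(hA1 x hx).2, (hA1 x hx).1⟩) sC ks hs fs
    exact ⟨fun e => absurd e this.2, fun e => by simp at e⟩

theorem st_LNJ (hA : ST_LNA) (hB : ST_LNB) (hY : ST_LSY) (hR : ST_RUB) : ST_LNJ := by
  intro V G h k M a b hL h2 hg hp hNaj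
  obtain ⟨c, n1, n2, n3⟩ := hNaj
  have hN : NS G ({h, k} ∪ LS M) c := ⟨n1, n2, n3⟩
  have hS : h ∈ ({h, k} ∪ LS M : Set V) := Or.inl (Or.inl rfl)
  have kS : k ∈ ({h, k} ∪ LS M : Set V) := Or.inl (Or.inr rfl)
  have hMS : ∀ y ∈ M, y ∈ ({h, k} ∪ LS M : Set V) := fun y hy => Or.inr hy
  obtain ⟨r0, r1, r2, r3, r4, -, -⟩ := hR V G h k
  obtain ⟨-, hL', -, -⟩ := hY V G h k M a b hL
  -- first vertex
  obtain ⟨p, M1, e1⟩ : ∃ p M1, M = p :: M1 := by
    cases M with
    | nil =>
      have := hL.two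
      simp at this
    | cons p M1 => exact ⟨p, M1, rfl⟩
  have hpn : ¬ (G.Adj h p ∧ G.Adj k p) := by
    have hf := hL.fst p (by rw [e1]; rfl)
    intro e
    have ea := hf.1.1 e.1
    have eb := hf.2.1 e.2
    rw [ea] at eb
    simp at eb
  have c1 : rungs G h k M = rungs G h k M1 := by rw [e1, r2 p M1 hpn]
  -- first rung
  obtain ⟨A, r, M2, e2, hAn, hr, kr, c2⟩ := lnj_split hR G h k M1 (by omega)
  -- last rung
  obtain ⟨B0, r', Y0, e3, hBn, hr', kr', c3⟩ := lnj_split hR G h k M2.reverse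
    (by rw [r4 M2]; omega)
  have e4 : M2 = Y0.reverse ++ r' :: B0.reverse := by
    have := congrArg List.reverse e3
    rw [List.reverse_reverse] at this
    rw [this]
    simp
  have eM : M = p :: (A ++ r :: (Y0.reverse ++ r' :: B0.reverse)) := by rw [e1, e2, e4]
  have hip := hL.ip
  rw [eM] at hip
  have hip2 : IPt G (r :: (Y0.reverse ++ r' :: B0.reverse)) := lnj_ipr G A _ hip.2.2.2
  have c4 : rungs G h k M = rungs G h k Y0 + 2 := by
    rw [r4 M2] at c3
    omega
  have hrM : r ∈ M := by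
    rw [eM]
    simp
  have hrM' : r' ∈ M := by
    rw [eM]
    simp
  have hrr : r ≠ r' := hip2.1 r' (by simp)
  -- the part between the rungs is not empty
  obtain ⟨f, Y, eY⟩ : ∃ f Y, Y0.reverse = f :: Y := by
    cases hc : Y0.reverse with
    | nil =>
      rw [hc] at hip2
      have ad : G.Adj r r' := hip2.2.1 r' rfl
      exact absurd ⟨hr, kr, hr', kr'⟩ (hL.ind r hrM r' hrM' ad)
    | cons f Y => exact ⟨f, Y, rfl⟩
  obtain ⟨l, Z, eZ⟩ : ∃ l Z, Y0 = l :: Z := by
    cases Y0 with
    | nil => simp at eY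
    | cons l Z => exact ⟨l, Z, rfl⟩
  -- last vertex
  obtain ⟨q, B, eB⟩ : ∃ q B, B0 = q :: B := by
    cases hc : B0 with
    | nil =>
      exfalso
      have hl := hL.lst r' (by
        rw [eM, hc]
        have : p :: (A ++ r :: (Y0.reverse ++ r' :: [].reverse)) =
          (p :: (A ++ r :: Y0.reverse)) ++ [r'] := by simp
        rw [this, List.getLast?_append]
        rfl)
      have ea := hl.1.1 hr'
      have eb := hl.2.1 kr'
      rw [ea] at eb
      simp at eb
    | cons q B => exact ⟨q, B, rfl⟩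
  have hrf : G.Adj r f := by
    rw [eY] at hip2
    exact hip2.2.1 f rfl
  have hfM : f ∈ M := by
    rw [eM, eY]
    simp
  -- `f` is not adjacent to the last rung
  have key : Y0 = [f] → False := by
    intro e
    have hfn : ¬ (G.Adj h f ∧ G.Adj k f) := fun e' =>
      hL.ind r hrM f hfM hrf ⟨hr, kr, e'.1, e'.2⟩
    have c5 : rungs G h k M = 2 := by
      rw [c4, e, r2 f [] hfn, r0]
    refine hg c5 ⟨r, hrM, r', hrM', f, hfM, hrr, hr, kr, hr', kr', hrf, ?_⟩
    rw [e] at hip2
    exact hip2.2.2.2.2.1 r' rfl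
  have nf : ¬ G.Adj f r' := by
    rw [eY] at hip2
    have h5 := hip2.2.2.2.2.2.1
    cases hc : Y with
    | nil =>
      rw [hc] at eY
      have : Y0 = [f] := by
        rw [← List.reverse_reverse Y0, eY]
        rfl
      exact absurd this key
    | cons y Y' =>
      rw [hc] at h5
      exact h5 r' (by simp)
  -- the left end
  have eM1 : M = p :: (A ++ r :: f :: (Y ++ r' :: B0.reverse)) := by rw [eM, eY]; rfl
  have left := lnj_half hB G ({h, k} ∪ LS M) c h k p r f r' A (Y ++ r' :: B0.reverse) a b hN hS kS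
    (by rw [← eM1]; exact hL) (by rw [← eM1]; exact hMS) hr kr hAn (by simp) hr' kr' nf
  -- the right end
  have eM2 : M.reverse = q :: (B ++ r' :: l :: (Z ++ r :: (A.reverse ++ [p]))) := by
    rw [eM, eZ, eB]
    simp
  have hip3 : IPt G (q :: (B ++ r' :: l :: (Z ++ r :: (A.reverse ++ [p])))) := by
    rw [← eM2]
    exact hL'.ip
  have nl : ¬ G.Adj l r := by
    have h6 := lnj_ipr G B _ hip3.2.2.2
    have h5 := h6.2.2.2.2.2.1
    cases hc : Z with
    | nil =>
      exfalso
      rw [hc] at eZ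
      rw [eZ] at eY
      have e5 : l = f := by
        have : [l] = f :: Y := eY
        exact (List.cons.inj this).1
      rw [e5] at eZ
      exact key eZ
    | cons y Z' =>
      rw [hc] at h5
      exact h5 r (by simp)
  have hMS' : ∀ y ∈ M.reverse, y ∈ ({h, k} ∪ LS M : Set V) := fun y hy =>
    hMS y (List.mem_reverse.1 hy)
  have hBn' : ∀ x ∈ B, ¬ (G.Adj h x ∧ G.Adj k x) := fun x hx =>
    hBn x (by rw [eB]; exact List.mem_cons_of_mem _ hx)
  have right := lnj_half hB G ({h, k} ∪ LS M) c h k q r' l r B (Z ++ r :: (A.reverse ++ [p])) b a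
    hN hS kS (by rw [← eM2]; exact hL') (by rw [← eM2]; exact hMS') hr' kr' hBn' (by simp) hr kr nl
  -- the middle
  have eM3 : M = ((p :: (A ++ [r])) ++ f :: (Y ++ [r'])) ++ B0.reverse := by
    rw [eM1]
    simp
  have hip4 : IPt G ((p :: (A ++ [r])) ++ f :: (Y ++ [r'])) := by
    have := hL.ip
    rw [eM3] at this
    exact lnj_ipl G _ _ this
  have sub : ∀ y ∈ (p :: (A ++ [r])) ++ f :: (Y ++ [r']), y ∈ M := by
    intro y hy
    rw [eM3]
    exact List.mem_append_left _ hy
  have sub2 : ∀ y ∈ f :: (Y ++ [r']), y ∈ M := fun y hy =>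
    sub y (List.mem_append_right _ hy)
  have hfl : (f :: Y).getLast? = some l := by
    rw [← eY, eZ]
    simp
  -- `h`-neighbours between the rungs are rungs
  have hmid : ∀ y ∈ f :: Y, (G.Adj h y ↔ G.Adj k y) := by
    intro y hy
    have hy' : y ∈ f :: (Y ++ [r']) := by
      rcases List.mem_cons.1 hy with e | hy
      · rw [e]
        exact List.mem_cons_self
      · exact List.mem_cons_of_mem _ (List.mem_append_left _ hy)
    refine hL.mid y (sub2 y hy') ?_ ?_
    · rw [eM]
      intro e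
      have e' : p = y := by simpa using e
      refine hip.1 y ?_ e'
      rw [eY]
      refine List.mem_append_right _ (List.mem_cons_of_mem _ (List.mem_append_left _ hy))
    · intro e
      have hq : M.getLast? = some q := by
        rw [eM, eB]
        have : p :: (A ++ r :: (Y0.reverse ++ r' :: (q :: B).reverse)) =
          (p :: (A ++ r :: (Y0.reverse ++ r' :: B.reverse))) ++ [q] := by simp
        rw [this, List.getLast?_append]
        rfl
      rw [hq] at e
      have e' : q = y := Option.some.inj e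
      have hd : ∀ x ∈ (f :: Y), ∀ z ∈ r' :: B0.reverse, x ≠ z := by
        have h7 := lnj_ipr G A _ hip.2.2.2
        have h8 : IPt G (Y0.reverse ++ r' :: B0.reverse) := h7.2.2.2
        rw [eY] at h8
        exact lnj_dis G _ _ h8
      refine hd y hy q ?_ e'.symm
      rw [eB]
      simp
  have hind : ∀ y ∈ f :: (Y ++ [r']), (G.Adj h y ↔ G.Adj k y) := by
    intro y hy
    rcases List.mem_cons.1 hy with e | hy
    · exact hmid y (by rw [e]; exact List.mem_cons_self)
    · rcases List.mem_append.1 hy with hy | hy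
      · exact hmid y (List.mem_cons_of_mem _ hy)
      · have e : y = r' := by simpa using hy
        rw [e]
        exact ⟨fun _ => kr', fun _ => hr'⟩
  have mid := hA V G ({h, k} ∪ LS M) c h k r r' f l (p :: (A ++ [r])) Y hN hip4 hS
    (fun y hy => ⟨hMS y (sub y hy), fun e => hL.hM (e ▸ sub y hy)⟩) (by simp) hr hr' left.1
    (fun y hy z hz hyz e => hL.ind y (sub2 y hy) z (sub2 z hz) hyz
      ⟨e.1, (hind y hy).1 e.1, e.2, (hind z hz).1 e.2⟩) hmid hfl
  -- counting
  have c6 : rungs G h k Y = rungs G h k Y0 := by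
    have h9 : rungs G h k (f :: Y) = rungs G h k Y := r2 f Y (fun e => left.1 e.1)
    rw [← h9, ← eY, r4]
  have c7 : Odd (rungs G h k M) ↔ ¬ Even (rungs G h k Y) := by
    rw [c4, c6, Nat.not_even_iff_odd]
    constructor
    · rintro ⟨t, ht⟩
      exact ⟨t - 1, by omega⟩
    · rintro ⟨t, ht⟩
      exact ⟨t + 1, by omega⟩
  have l3 := left.2.2
  have l4 := right.2.2
  rw [c7, ← mid] at hp
  revert l3 l4 hp
  cases c h k <;> cases c h f <;> cases c h l <;> cases a <;> cases b <;> simp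

end Pool.Agent.Helper24.FF
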